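import Pool.Agent.helper50.PHN.Spec

/-! # Project PHN (MP_f10000_nt): row TSM -/

set_option autoImplicit false

namespace Pool.Agent.PHN

open Finset

theorem TSM_step (j N : ℕ) : ∑ d ∈ Icc 1 N, (tau (j + 1) d : ℝ) / d ≤
    (∑ d ∈ Icc 1 N, (tau j d : ℝ) / d) * ∑ f ∈ Icc 1 N, 1 / (f : ℝ) := by
  have h1 : ∀ d ∈ Icc 1 N, (tau (j + 1) d : ℝ) / d =
      ∑ x ∈ d.divisorsAntidiagonal, (tau j x.1 : ℝ) / x.1 * (1 / (x.2 : ℝ)) := by
    intro d hd
    have e1 : (tau (j + 1) d : ℝ) / d = ∑ e ∈ d.divisors, (tau j e : ℝ) / d := by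
      rw [show tau (j + 1) d = ∑ e ∈ d.divisors, tau j e from rfl]
      push_cast
      rw [Finset.sum_div]
    rw [e1, Nat.sum_divisorsAntidiagonal (fun a b => (tau j a : ℝ) / a * (1 / (b : ℝ)))]
    refine Finset.sum_congr rfl fun e he => ?_
    have hed : e ∣ d := Nat.dvd_of_mem_divisors he
    have hd0 : d ≠ 0 := by have := (Finset.mem_Icc.1 hd).1; omega
    have he0 : (e : ℝ) ≠ 0 := by
      have : e ≠ 0 := fun h => hd0 (by rw [h] at hed; exact zero_dvd_iff.1 hed)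
      exact_mod_cast this
    have hd1 : (d : ℝ) ≠ 0 := by exact_mod_cast hd0
    rw [Nat.cast_div hed he0]
    field_simp
  rw [Finset.sum_congr rfl h1, ← Finset.sum_biUnion, Finset.sum_mul_sum, ← Finset.sum_product']
  · refine Finset.sum_le_sum_of_subset_of_nonneg ?_ fun x _ _ => by positivity
    intro x hx
    obtain ⟨d, hd, hx⟩ := Finset.mem_biUnion.1 hx
    obtain ⟨hm, hd0⟩ := Nat.mem_divisorsAntidiagonal.1 hx
    have hdN := (Finset.mem_Icc.1 hd).2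
    have h1 : x.1 ≠ 0 := fun h => hd0 (by rw [← hm, h, zero_mul])
    have h2 : x.2 ≠ 0 := fun h => hd0 (by rw [← hm, h, mul_zero])
    have h3 : x.1 ≤ d := Nat.le_of_dvd (Nat.pos_of_ne_zero hd0) ⟨x.2, hm.symm⟩
    have h4 : x.2 ≤ d := Nat.le_of_dvd (Nat.pos_of_ne_zero hd0) ⟨x.1, by rw [mul_comm]; exact hm.symm⟩
    exact Finset.mem_product.2 ⟨Finset.mem_Icc.2 ⟨Nat.pos_of_ne_zero h1, h3.trans hdN⟩,
      Finset.mem_Icc.2 ⟨Nat.pos_of_ne_zero h2, h4.trans hdN⟩⟩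
  · intro a _ b _ hab
    refine Finset.disjoint_left.2 fun x hxa hxb => hab ?_
    rw [← (Nat.mem_divisorsAntidiagonal.1 hxa).1, ← (Nat.mem_divisorsAntidiagonal.1 hxb).1]

theorem TSM_ind (j N : ℕ) : ∑ d ∈ Icc 1 N, (tau j d : ℝ) / d ≤ (∑ f ∈ Icc 1 N, 1 / (f : ℝ)) ^ j := by
  induction j with
  | zero =>
    rw [pow_zero]
    calc ∑ d ∈ Icc 1 N, (tau 0 d : ℝ) / d ≤ ∑ d ∈ Icc 1 N, if d = 1 then (1 : ℝ) else 0 := by
          refine Finset.sum_le_sum fun d _ => ?_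
          by_cases h : d = 1
          · subst h; simp [tau]
          · simp [tau, h]
      _ ≤ 1 := by
          rw [Finset.sum_ite_eq']
          split_ifs <;> norm_num
  | succ j ih =>
    refine (TSM_step j N).trans ?_
    rw [pow_succ]
    exact mul_le_mul_of_nonneg_right ih (Finset.sum_nonneg fun f _ => by positivity)

/-- row TSM -/
theorem TSM : TSM_stmt := by
  intro j Y D hY hD
  have hsub : D ⊆ Icc 1 ⌊Y⌋₊ := fun d hd => Finset.mem_Icc.2 ⟨(hD d hd).1, Nat.le_floor (hD d hd).2⟩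
  have h1 : ∑ d ∈ D, (tau j d : ℝ) / d ≤ ∑ d ∈ Icc 1 ⌊Y⌋₊, (tau j d : ℝ) / d :=
    Finset.sum_le_sum_of_subset_of_nonneg hsub fun d _ _ => by positivity
  have h2 : ∑ f ∈ Icc 1 ⌊Y⌋₊, 1 / (f : ℝ) ≤ 1 + Real.log Y := by
    have h := harmonic_floor_le_one_add_log Y hY
    rw [harmonic_eq_sum_Icc] at h
    push_cast at h
    simpa [one_div] using h
  refine (h1.trans (TSM_ind j _)).trans (pow_le_pow_left₀ (Finset.sum_nonneg fun f _ => by positivity) h2 j)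

end Pool.Agent.PHN
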